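import Pool.Agent.T9h34.QE.Spec2
import Pool.Agent.T9h41.QC.Bad
import Pool.Agent.T9h41.QL.Thr

/-!
# (M) The second moment of the number of `k`-cliques at the threshold, uniformly for `k ^ 10 ≤ n`
-/

set_option autoImplicit false

namespace Pool.Agent.T9h41.QE

open Finset
open Pool.Agent.T9h16.QL (meanCl ratio2)
open Pool.Agent.T9h34.QE
open Pool.Agent.T9h41.QL (two_choose choose_ge)

/-- The factor `p ^ (j.choose 2)` for small `j`. -/
lemma small_pow {n k j : ℕ} {p : ℝ} (hp : 0 < p) (hp1 : p ≤ 1) (hk : 3 ≤ k)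
    (hjk : 2 * j ≤ k + 1) (hlow : 1 / 4 ≤ (n : ℝ) ^ k * p ^ (k.choose 2)) :
    1 ≤ (p ^ (j.choose 2)) ^ 2 * (4 * (n : ℝ)) ^ j := by
  have hk0 : k ≠ 0 := by omega
  have hexp : j.choose 2 * 2 * k ≤ k.choose 2 * j := by
    have h1 : 2 * j.choose 2 = j * (j - 1) := by
      rw [Nat.choose_two_right, Nat.mul_div_cancel' (Nat.even_mul_pred_self _).two_dvd]
    have h2 : 2 * k.choose 2 = k * (k - 1) := by
      rw [Nat.choose_two_right, Nat.mul_div_cancel' (Nat.even_mul_pred_self _).two_dvd]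
    have h3 : 2 * (j - 1) ≤ k - 1 := by omega
    have h4 : 2 * (j.choose 2 * 2 * k) ≤ 2 * (k.choose 2 * j) := by
      calc 2 * (j.choose 2 * 2 * k) = (2 * j.choose 2) * 2 * k := by ring
        _ = j * k * (2 * (j - 1)) := by rw [h1]; ring
        _ ≤ j * k * (k - 1) := Nat.mul_le_mul_left _ h3
        _ = 2 * (k.choose 2 * j) := by rw [← mul_assoc, h2]; ring
    omega
  have h1 : (1 : ℝ) ≤ ((p ^ (j.choose 2)) ^ 2 * (4 * (n : ℝ)) ^ j) ^ k := by
    calc (1 : ℝ) ≤ (4 * ((n : ℝ) ^ k * p ^ (k.choose 2))) ^ j := by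
          refine one_le_pow₀ ?_
          linarith
      _ ≤ ((4 : ℝ) ^ k * ((n : ℝ) ^ k * p ^ (k.choose 2))) ^ j := by
          have : (4 : ℝ) ≤ 4 ^ k := le_self_pow₀ (by norm_num) hk0
          gcongr
      _ = p ^ (k.choose 2 * j) * (4 * (n : ℝ)) ^ (k * j) := by
          rw [mul_pow, mul_pow, ← pow_mul, ← pow_mul, ← pow_mul, mul_pow]
          ring
      _ ≤ p ^ (j.choose 2 * 2 * k) * (4 * (n : ℝ)) ^ (k * j) := by
          refine mul_le_mul_of_nonneg_right ?_ (by positivity)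
          exact pow_le_pow_of_le_one hp.le hp1 hexp
      _ = ((p ^ (j.choose 2)) ^ 2 * (4 * (n : ℝ)) ^ j) ^ k := by
          rw [mul_pow ((p ^ (j.choose 2)) ^ 2), ← pow_mul, ← pow_mul, ← pow_mul, mul_comm k j,
            mul_assoc (j.choose 2)]
  by_contra hcon
  push Not at hcon
  have h2 : ((p ^ (j.choose 2)) ^ 2 * (4 * (n : ℝ)) ^ j) ^ k < 1 :=
    pow_lt_one₀ (by positivity) hcon hk0
  linarith

/-- Small intersections. -/
lemma small {n k j : ℕ} {p : ℝ} (hp : 0 < p) (hp1 : p ≤ 1) (hk : 3 ≤ k) (hkn : k ^ 10 ≤ n)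
    (hj : 1 ≤ j) (hjk : 2 * j ≤ k + 1) (hlow : 1 / 4 ≤ (n : ℝ) ^ k * p ^ (k.choose 2)) :
    (k.choose j : ℝ) * ((n - k).choose (k - j) : ℝ) * p ^ (k.choose 2 - j.choose 2) ≤
      (n.choose k : ℝ) * p ^ (k.choose 2) / k := by
  have hjk' : j ≤ k := by omega
  have hk1 : 1 ≤ k := by omega
  have hn : k ≤ n := (Nat.le_self_pow (by norm_num) k).trans hkn
  have hn0 : (0 : ℝ) < n := by exact_mod_cast (by omega : 0 < n)
  have hkR : (1 : ℝ) ≤ k := by exact_mod_cast hk1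
  have hk0 : (0 : ℝ) < k := by linarith
  have hQ := small_pow hp hp1 hk hjk hlow
  obtain ⟨Q, hQd⟩ : ∃ Q : ℝ, Q = p ^ (j.choose 2) := ⟨_, rfl⟩
  rw [← hQd] at hQ
  have hQ0 : 0 < Q := by rw [hQd]; positivity
  have hsplit : p ^ (k.choose 2 - j.choose 2) = p ^ (k.choose 2) / Q := by
    rw [eq_div_iff hQ0.ne', hQd, ← pow_add, Nat.sub_add_cancel (Nat.choose_le_choose 2 hjk')]
  -- the binomial coefficients
  have h1 : (k.choose j : ℝ) ≤ (k : ℝ) ^ j := by exact_mod_cast Nat.choose_le_pow k j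
  have h2 : ((n - k).choose (k - j) : ℝ) * (n : ℝ) ^ j ≤ (n.choose k : ℝ) * (k : ℝ) ^ j := by
    have h3 : (n - k).choose (k - j) ≤ (n - j).choose (k - j) :=
      Nat.choose_le_choose _ (by omega)
    have h4 := Pool.Agent.T9h41.QC.choose_le hn hjk'
    have h5 : (n - k).choose (k - j) * n ^ j ≤ n.choose k * k ^ j :=
      (Nat.mul_le_mul_right _ h3).trans h4
    exact_mod_cast h5
  -- the power of `k`
  have h3 : (k : ℝ) ^ (2 * j + 1) ≤ (n : ℝ) ^ j * Q := by
    have h4 : ((k : ℝ) ^ (2 * j + 1)) ^ 2 ≤ ((n : ℝ) ^ j * Q) ^ 2 := by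
      have h5 : (k : ℝ) ^ 6 * 4 ≤ n := by
        have h6 : k ^ 6 * 4 ≤ n := by
          calc k ^ 6 * 4 ≤ k ^ 6 * k ^ 4 := by
                refine Nat.mul_le_mul_left _ ?_
                calc 4 ≤ 3 ^ 4 := by norm_num
                  _ ≤ k ^ 4 := Nat.pow_le_pow_left hk 4
            _ = k ^ 10 := by ring
            _ ≤ n := hkn
        exact_mod_cast h6
      calc ((k : ℝ) ^ (2 * j + 1)) ^ 2 = (k : ℝ) ^ (4 * j + 2) := by
            rw [← pow_mul]
            congr 1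
            ring
        _ ≤ (k : ℝ) ^ (6 * j) := pow_le_pow_right₀ hkR (by omega)
        _ ≤ ((n : ℝ) / 4) ^ j := by
            rw [pow_mul]
            refine pow_le_pow_left₀ (by positivity) ?_ j
            linarith
        _ = (n : ℝ) ^ (2 * j) / (4 * (n : ℝ)) ^ j := by
            rw [pow_mul, ← div_pow]
            congr 1
            field_simp
        _ ≤ (n : ℝ) ^ (2 * j) / (4 * (n : ℝ)) ^ j * (Q ^ 2 * (4 * (n : ℝ)) ^ j) :=
            le_mul_of_one_le_right (by positivity) hQ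
        _ = ((n : ℝ) ^ j * Q) ^ 2 := by
            rw [mul_pow ((n : ℝ) ^ j), ← pow_mul, mul_comm j 2]
            field_simp
    exact (pow_le_pow_iff_left₀ (by positivity) (by positivity) two_ne_zero).1 h4
  have hpk : 0 < p ^ (k.choose 2) := by positivity
  rw [hsplit, le_div_iff₀ hk0]
  have hden : (0 : ℝ) < (n : ℝ) ^ j * Q := by positivity
  have h4 : (k.choose j : ℝ) * ((n - k).choose (k - j) : ℝ) * k * (n : ℝ) ^ j ≤
      (n.choose k : ℝ) * ((n : ℝ) ^ j * Q) := by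
    calc (k.choose j : ℝ) * ((n - k).choose (k - j) : ℝ) * k * (n : ℝ) ^ j
        = (k.choose j : ℝ) * k * (((n - k).choose (k - j) : ℝ) * (n : ℝ) ^ j) := by ring
      _ ≤ (k : ℝ) ^ j * k * ((n.choose k : ℝ) * (k : ℝ) ^ j) := by gcongr
      _ = (n.choose k : ℝ) * (k : ℝ) ^ (2 * j + 1) := by ring
      _ ≤ _ := by gcongr
  have h5 : (k.choose j : ℝ) * ((n - k).choose (k - j) : ℝ) * k ≤ (n.choose k : ℝ) * Q := by
    have hnj : (0 : ℝ) < (n : ℝ) ^ j := by positivity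
    refine le_of_mul_le_mul_right ?_ hnj
    calc _ ≤ _ := h4
      _ = _ := by ring
  calc (k.choose j : ℝ) * ((n - k).choose (k - j) : ℝ) * (p ^ (k.choose 2) / Q) * k
      = (k.choose j : ℝ) * ((n - k).choose (k - j) : ℝ) * k * (p ^ (k.choose 2) / Q) := by ring
    _ ≤ (n.choose k : ℝ) * Q * (p ^ (k.choose 2) / Q) := by gcongr
    _ = (n.choose k : ℝ) * p ^ (k.choose 2) := by field_simp

/-- Large intersections. -/
lemma large {n k j : ℕ} {p : ℝ} (hp : 0 < p) (hp1 : p ≤ 1) (hk : 3 ≤ k) (hkn : k ^ 10 ≤ n)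
    (hn : 2 ^ 28 ≤ n) (hjk : k + 1 < 2 * j) (hj2 : j < k)
    (h : p ^ (k - 1) ≤ (2 * k / n) ^ 2) :
    (k.choose j : ℝ) * ((n - k).choose (k - j) : ℝ) * p ^ (k.choose 2 - j.choose 2) ≤
      1 / (4 * k) := by
  obtain ⟨j', rfl⟩ : ∃ j', j = j' + 1 := ⟨j - 1, by omega⟩
  obtain ⟨i, rfl⟩ : ∃ i, k = j' + 1 + i := ⟨k - (j' + 1), by omega⟩
  have hi : 1 ≤ i := by omega
  have hij : i ≤ j' + 2 := by omega
  have hn0 : (0 : ℝ) < n := by exact_mod_cast (by omega : 0 < n)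
  have hnR : (2 : ℝ) ^ 28 ≤ n := by exact_mod_cast hn
  have hE := two_choose j' i
  obtain ⟨E, hEd⟩ : ∃ E : ℕ, E = (j' + 1 + i).choose 2 - (j' + 1).choose 2 := ⟨_, rfl⟩
  rw [← hEd] at hE ⊢
  rw [show j' + 1 + i - (j' + 1) = i by omega]
  rw [show j' + 1 + i - 1 = j' + i by omega] at h
  have hsymm : (j' + 1 + i).choose (j' + 1) = (j' + 1 + i).choose i := by
    rw [← Nat.choose_symm (show i ≤ j' + 1 + i by omega)]
    congr 1
    omega
  rw [hsymm]
  have h1 : ((j' + 1 + i).choose i : ℝ) ≤ ((j' + 1 + i : ℕ) : ℝ) ^ i := by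
    exact_mod_cast Nat.choose_le_pow (j' + 1 + i) i
  have h2 : ((n - (j' + 1 + i)).choose i : ℝ) ≤ (n : ℝ) ^ i := by
    have h3 : (n - (j' + 1 + i)).choose i ≤ (n - (j' + 1 + i)) ^ i := Nat.choose_le_pow _ _
    have h4 : (n - (j' + 1 + i)) ^ i ≤ n ^ i := Nat.pow_le_pow_left (Nat.sub_le _ _) _
    exact_mod_cast h3.trans h4
  obtain ⟨K, hK⟩ : ∃ K : ℕ, K = j' + 1 + i := ⟨_, rfl⟩
  rw [← hK] at h h1 h2 hk hkn ⊢
  have hK0 : (0 : ℝ) < K := by exact_mod_cast (by omega : 0 < K)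
  have hKR : (1 : ℝ) ≤ K := by exact_mod_cast (by omega : 1 ≤ K)
  have hK10 : (K : ℝ) ^ 10 ≤ n := by exact_mod_cast hkn
  have hbase : 64 * (K : ℝ) ^ 10 / (n : ℝ) ^ 2 ≤ 1 := by
    rw [div_le_one (by positivity)]
    calc 64 * (K : ℝ) ^ 10 ≤ n * n := by
          refine mul_le_mul ?_ hK10 (by positivity) hn0.le
          linarith
      _ = (n : ℝ) ^ 2 := by ring
  have hfin : 64 * (K : ℝ) ^ 10 / (n : ℝ) ^ 2 ≤ (1 / (4 * K)) ^ 4 := by
    have h3 : (2 : ℝ) ^ 14 * (K : ℝ) ^ 14 ≤ (n : ℝ) ^ 2 := by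
      have h4 : ((2 : ℝ) ^ 14 * (K : ℝ) ^ 14) ^ 2 ≤ ((n : ℝ) ^ 2) ^ 2 := by
        calc ((2 : ℝ) ^ 14 * (K : ℝ) ^ 14) ^ 2 = 2 ^ 28 * (K : ℝ) ^ 28 := by ring
          _ ≤ n * (K : ℝ) ^ 30 := by
              refine mul_le_mul hnR (pow_le_pow_right₀ hKR (by norm_num)) (by positivity) hn0.le
          _ = n * ((K : ℝ) ^ 10) ^ 3 := by ring
          _ ≤ n * (n : ℝ) ^ 3 := by gcongr
          _ = ((n : ℝ) ^ 2) ^ 2 := by ring
      exact (pow_le_pow_iff_left₀ (by positivity) (by positivity) two_ne_zero).1 h4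
    rw [div_pow, one_pow, div_le_div_iff₀ (by positivity) (by positivity)]
    calc 64 * (K : ℝ) ^ 10 * (4 * K) ^ 4 = 2 ^ 14 * (K : ℝ) ^ 14 := by ring
      _ ≤ (n : ℝ) ^ 2 := h3
      _ = 1 * (n : ℝ) ^ 2 := by ring
  have hx : ((K : ℝ) ^ i * (n : ℝ) ^ i * p ^ E) ^ 4 ≤ (1 / (4 * K)) ^ 4 := by
    calc ((K : ℝ) ^ i * (n : ℝ) ^ i * p ^ E) ^ 4
        = ((K : ℝ) * n) ^ (4 * i) * p ^ (2 * (2 * E)) := by
          ring
      _ ≤ ((K : ℝ) * n) ^ (4 * i) * p ^ ((j' + i) * (3 * i)) := by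
          refine mul_le_mul_of_nonneg_left ?_ (by positivity)
          refine pow_le_pow_of_le_one hp.le hp1 ?_
          rw [hE]
          nlinarith
      _ = ((K : ℝ) * n) ^ (4 * i) * (p ^ (j' + i)) ^ (3 * i) := by rw [pow_mul p]
      _ ≤ ((K : ℝ) * n) ^ (4 * i) * ((2 * K / n) ^ 2) ^ (3 * i) := by gcongr
      _ = (64 * (K : ℝ) ^ 10 / (n : ℝ) ^ 2) ^ i := by
          rw [pow_mul, pow_mul, ← mul_pow]
          congr 1
          field_simp
          ring
      _ ≤ (64 * (K : ℝ) ^ 10 / (n : ℝ) ^ 2) ^ 1 :=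
          pow_le_pow_of_le_one (by positivity) hbase hi
      _ ≤ _ := by rw [pow_one]; exact hfin
  have hx' := (pow_le_pow_iff_left₀ (by positivity) (by positivity) (by norm_num : (4 : ℕ) ≠ 0)).1 hx
  refine le_trans ?_ hx'
  gcongr

/-- **(M)** -/
theorem stThrE : StThrE := by
  refine ⟨2 ^ 28, ?_⟩
  intro n k a L hn hk hkn ha haL hM1 hM2
  have hkn' : k ≤ n := (Nat.le_self_pow (by norm_num) k).trans hkn
  have hn2k : 2 * k ≤ n := by
    calc 2 * k ≤ k ^ 9 * k := by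
          refine Nat.mul_le_mul_right _ ?_
          calc 2 ≤ 3 ^ 9 := by norm_num
            _ ≤ k ^ 9 := Nat.pow_le_pow_left hk 9
      _ = k ^ 10 := by ring
      _ ≤ n := hkn
  have hn0 : (0 : ℝ) < n := by exact_mod_cast (by omega : 0 < n)
  have hnR : (2 : ℝ) ^ 28 ≤ n := by exact_mod_cast hn
  have haR : (0 : ℝ) < a := by exact_mod_cast ha
  have hLR : (0 : ℝ) < L := by exact_mod_cast (by omega : 0 < L)
  obtain ⟨p, hpd⟩ : ∃ p : ℝ, p = (a : ℝ) / L := ⟨_, rfl⟩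
  rw [← hpd] at hM1 hM2 ⊢
  have hp : 0 < p := by rw [hpd]; positivity
  have hp1 : p ≤ 1 := by
    rw [hpd, div_le_one hLR]
    exact_mod_cast haL
  have hk0 : (0 : ℝ) < k := by exact_mod_cast (by omega : 0 < k)
  have hk3 : (3 : ℝ) ≤ k := by exact_mod_cast hk
  have hch := choose_ge (by omega : 1 ≤ k) hn2k
  obtain ⟨M, hMd⟩ : ∃ M : ℝ, M = meanCl n k p := ⟨_, rfl⟩
  have hMdef : M = (n.choose k : ℝ) * p ^ (k.choose 2) := hMd
  rw [← hMd] at hM1 hM2
  have hM0 : 0 < M := by linarith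
  -- the upper bound for `p`
  have hpk : p ^ (k - 1) ≤ (2 * k / n) ^ 2 := by
    have h1 : p ^ (k.choose 2) ≤ (2 * k / n) ^ k := by
      have h2 : ((n : ℝ) / (2 * k)) ^ k * p ^ (k.choose 2) ≤ 1 := by
        calc ((n : ℝ) / (2 * k)) ^ k * p ^ (k.choose 2) ≤ (n.choose k : ℝ) * p ^ (k.choose 2) := by
              gcongr
          _ ≤ 1 := by rw [← hMdef]; linarith
      calc p ^ (k.choose 2) = (2 * k / n) ^ k * (((n : ℝ) / (2 * k)) ^ k * p ^ (k.choose 2)) := by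
            rw [← mul_assoc, ← mul_pow]
            have : (2 * (k : ℝ) / n) * (n / (2 * k)) = 1 := by field_simp
            rw [this, one_pow, one_mul]
        _ ≤ (2 * k / n) ^ k * 1 := by gcongr
        _ = _ := mul_one _
    have h3 : (p ^ (k - 1)) ^ k ≤ ((2 * k / n) ^ 2) ^ k := by
      calc (p ^ (k - 1)) ^ k = (p ^ (k.choose 2)) ^ 2 := by
            rw [← pow_mul, ← pow_mul]
            congr 1
            have h3 : 2 ∣ k * (k - 1) := (Nat.even_mul_pred_self _).two_dvd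
            rw [Nat.choose_two_right, Nat.div_mul_cancel h3, mul_comm]
        _ ≤ ((2 * k / n) ^ k) ^ 2 := by gcongr
        _ = _ := by rw [← pow_mul, ← pow_mul, mul_comm k 2]
    exact (pow_le_pow_iff_left₀ (by positivity) (by positivity) (by omega : k ≠ 0)).1 h3
  have hlow : 1 / 4 ≤ (n : ℝ) ^ k * p ^ (k.choose 2) := by
    refine hM1.trans ?_
    rw [hMdef]
    have : (n.choose k : ℝ) ≤ (n : ℝ) ^ k := by exact_mod_cast Nat.choose_le_pow n k
    gcongr
  constructor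
  · -- the second moment
    have hterm : ∀ j ∈ Ico 1 k, ((k.choose j * (n - k).choose (k - j) : ℕ) : ℝ) *
        p ^ (k.choose 2 - j.choose 2) / M ≤ 1 / k := by
      intro j hj
      obtain ⟨hj1, hj2⟩ := mem_Ico.1 hj
      rw [div_le_iff₀ hM0]
      push_cast
      rcases Nat.lt_or_ge (k + 1) (2 * j) with hj3 | hj3
      · refine (large hp hp1 hk hkn hn hj3 hj2 hpk).trans ?_
        calc 1 / (4 * (k : ℝ)) = 1 / k * (1 / 4) := by field_simp
          _ ≤ 1 / k * M := by gcongr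
      · refine (small hp hp1 hk hkn hj1 hj3 hlow).trans (le_of_eq ?_)
        rw [hMdef]
        ring
    have hsum : ∑ j ∈ Ico 1 k, ((k.choose j * (n - k).choose (k - j) : ℕ) : ℝ) *
        p ^ (k.choose 2 - j.choose 2) / M ≤ 1 := by
      refine (Finset.sum_le_sum hterm).trans ?_
      rw [Finset.sum_const, Nat.card_Ico, nsmul_eq_mul]
      have h1 : ((k - 1 : ℕ) : ℝ) ≤ k := by exact_mod_cast Nat.sub_le _ _
      calc ((k - 1 : ℕ) : ℝ) * (1 / k) ≤ k * (1 / k) := by gcongr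
        _ = 1 := by field_simp
    have hzero : ((k.choose 0 * (n - k).choose (k - 0) : ℕ) : ℝ) *
        p ^ (k.choose 2 - Nat.choose 0 2) / M ≤ 1 := by
      rw [div_le_one hM0, hMdef, Nat.choose_zero_right, one_mul, Nat.sub_zero,
        Nat.choose_eq_zero_of_lt (by norm_num : 0 < 2), Nat.sub_zero]
      have : (n - k).choose k ≤ n.choose k := Nat.choose_le_choose k (Nat.sub_le _ _)
      have h2 : ((n - k).choose k : ℝ) ≤ (n.choose k : ℝ) := by exact_mod_cast this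
      gcongr
    have hlast : ((k.choose k * (n - k).choose (k - k) : ℕ) : ℝ) *
        p ^ (k.choose 2 - k.choose 2) / M ≤ 4 := by
      rw [Nat.choose_self, Nat.sub_self, Nat.choose_zero_right, Nat.sub_self, pow_zero,
        div_le_iff₀ hM0]
      push_cast
      linarith
    unfold ratio2
    rw [← hMd, Finset.sum_range_succ, Finset.range_eq_Ico,
      Finset.sum_eq_sum_Ico_succ_bot (by omega : 0 < k)]
    rw [zero_add]
    linarith
  · -- the logarithm
    have hlog := Real.log_le_log (by norm_num) hlow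
    rw [Real.log_mul (by positivity) (by positivity), Real.log_pow, Real.log_pow] at hlog
    have h4 : Real.log (1 / 4) = -(2 * Real.log 2) := by
      rw [one_div, Real.log_inv, show (4 : ℝ) = 2 ^ 2 by norm_num, Real.log_pow]
      push_cast
      ring
    have hcast : ((k.choose 2 : ℕ) : ℝ) = k * (k - 1) / 2 := Nat.cast_choose_two ℝ k
    rw [h4, hcast] at hlog
    have hlogn : 4 * Real.log 2 ≤ Real.log n := by
      have h5 : (2 : ℝ) ^ 4 ≤ n := by linarith
      have := Real.log_le_log (by positivity) h5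
      rw [Real.log_pow] at this
      push_cast at this
      linarith
    have hl2 : 0 < Real.log 2 := Real.log_pos (by norm_num)
    have hk1 : (0 : ℝ) < (k : ℝ) - 1 := by linarith
    have hrew : Real.log (L / a) = - Real.log p := by
      rw [hpd, Real.log_div (by positivity) (by positivity),
        Real.log_div (by positivity) (by positivity)]
      ring
    rw [hrew, div_mul_eq_mul_div, le_div_iff₀ hk1]
    -- multiply by `k`
    have h5 : (k : ℝ) * (- Real.log p * (k - 1)) ≤ k * (3 * Real.log n) := by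
      nlinarith
    exact le_of_mul_le_mul_left h5 hk0

end Pool.Agent.T9h41.QE
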