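import Pool.Agent.T9h34.QE.Spec

/-!
# (F4) The bad event, the output, with one star at distance `2 * sqrt nu * R / n`
-/

set_option autoImplicit false

namespace Pool.Agent.T9h41.QE

open Finset
open Pool.Agent.PC34 (prob)
open Pool.Agent.T9h34.Q
open Pool.Agent.T9h16.QL (EnvL toEnv StExchL)
open Pool.Agent.T9h34.QE

lemma dst_nonneg (L a n R : ℕ) : 0 ≤ dst L a n R := by
  unfold dst
  positivity

/-- **(F4)** -/
theorem stBadOutE : StExchL → StShapeE → StBadE → StAllTVE → StBadOutE := by
  intro hExch hShape hBad hTV V _ _ _ L a₀ B d m k h1 h2 hk t q lo hi htq hlo hhi hm hR h hmono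
    hbool
  have hd := dst_nonneg L a₀ (Fintype.card V) (Fintype.card (Rt B d m))
  refine hBad V L a₀ B d m k h1 h2 hk t q lo hi h _ (mul_nonneg (Nat.cast_nonneg _) hd)
    fun a j ha hj0 hj F A hF hA => hShape V L a₀ B d m j a h1 h2 h hmono _ F A hF hA
      fun C par hAC hpar hleaf => ?_
  have ha' : a < B := by omega
  refine (hExch V L a₀ B d m j a ha' (by omega) (by omega) (by omega) hm h hmono C A par hAC
    hpar hleaf).trans ?_
  refine (hTV V L a₀ B d m j ⟨a, ha'⟩ h1 h2 (by omega) hR h hmono hbool C par hpar).trans ?_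
  refine mul_le_mul_of_nonneg_right ?_ hd
  exact_mod_cast Nat.add_le_add_left hj (d * m)

end Pool.Agent.T9h41.QE
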